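import Pool.Agent.H77.AB.MixMain
import Pool.Agent.H88.AB.Real
import Pool.Agent.H59.AB.Main

/-!
# Project AB, module MixL: the mixed relation for `K = L`, and in the form of an index set

* `relL`: `H88AB.RelL f L p c₀ Ω` for `7 ≤ p`, `p ∤ f`, `1 ≤ c₀ < f p`.
* `good_rel`: the relation for a general `K ⊇ L`, index set `Fin n'`, in the form `H59AB.RelE` (all characters).
-/

namespace H77AB

open Polynomial NumberField H9FC H45KC H9AB
open scoped Pointwise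

universe u v w

theorem nfR_self (L : Type*) [Field L] [NumberField L] (a b : 𝓞 L) :
    nfR L L a b = C a + X * C b := by
  classical
  have h1 := nfR_map_prod L L L (by
    rw [Module.finrank_self]
    exact Fintype.card_eq_one_iff.2 ⟨AlgHom.id L L, fun y => Subsingleton.elim _ _⟩) a b
  have h3 : ∀ φ : 𝓞 L →+* 𝓞 L, (∀ x, φ x = x) → (nfR L L a b).map φ = nfR L L a b := fun φ hφ => by
    rw [show φ = RingHom.id _ from RingHom.ext hφ, Polynomial.map_id]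
  rw [h3 _ (fun x => rfl)] at h1
  rw [h1, Fintype.prod_eq_single (AlgHom.id L L) (fun y hy => absurd (Subsingleton.elim _ _) hy)]
  rfl

/-- the mixed relation for `K = L`, all characters -/
theorem rel_self (f p : ℕ) [NeZero f] [NeZero (f * p)] [hp : Fact p.Prime] (hp7 : 7 ≤ p)
    (hpf : ¬ p ∣ f) (L : Type u) [Field L] [NumberField L] [IsCyclotomicExtension {f} ℚ L]
    (c₀ : ℕ) (hc₀ : 1 ≤ c₀) (hc₀' : c₀ < f * p)
    (Ω : Type w) [Field Ω] [IsAlgClosed Ω] [CharP Ω p]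
    (a b c : 𝓞 L) (h : FSol L p a b c) (hcp : CopAt L p a b c) (w₀ : 𝓞 L →+* Ω)
    (χ : (ZMod f)ˣ →* Ωˣ) (m : ℕ) (hm : Even m) (hm2 : 2 ≤ m) (hmp : m + 4 ≤ p) :
    H99AB.beta Ω f p c₀ (m + 1) χ = 0 ∨
      ∑ g ∈ H88AB.good f L w₀ a b c, (χ g : Ω) *
        H69FD.LL m (-(w₀ (actL f L g b)) / w₀ (actL f L g a)) = 0 := by
  classical
  have h1 := twisted_kummer_mixed f p (by omega) hpf L L a b c h hcp Ω w₀
    (fun g _ => w₀.comp (actL f L g)) (by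
      intro g x y
      have h2 : Module.finrank L L = 1 := Module.finrank_self L
      rw [nfR_self, Finset.prod_const, Finset.card_univ, Fintype.card_fin, h2, pow_one]
      simp [Polynomial.map_add, Polynomial.map_mul]) c₀ hc₀ hc₀' (m + 1) hm.add_one (by omega)
      (by rw [Module.finrank_self]; omega) χ
  refine h1.imp id fun h2 => ?_
  rw [← h2, ← Finset.sum_subset (Finset.subset_univ (H88AB.good f L w₀ a b c))]
  · refine Finset.sum_congr rfl fun g hg => ?_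
    rw [H88AB.mem_good] at hg
    have h3 : GG (fun _ : Fin (Module.finrank L L) => w₀.comp (actL f L g)) a b c = Finset.univ := by
      ext i
      rw [mem_GG]
      simpa using hg
    rw [h3, Finset.sum_const, Finset.card_univ, Fintype.card_fin, Module.finrank_self, one_smul]
    rfl
  · intro g _ hg
    rw [H88AB.mem_good] at hg
    have h3 : GG (fun _ : Fin (Module.finrank L L) => w₀.comp (actL f L g)) a b c = ∅ := by
      ext i
      rw [mem_GG]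
      simpa using hg
    rw [h3, Finset.sum_empty, mul_zero]

/-- helper88's `RelL` -/
theorem relL (f p : ℕ) [NeZero f] [NeZero (f * p)] [hp : Fact p.Prime] (hp7 : 7 ≤ p)
    (hpf : ¬ p ∣ f) (L : Type u) [Field L] [NumberField L] [IsCyclotomicExtension {f} ℚ L]
    (c₀ : ℕ) (hc₀ : 1 ≤ c₀) (hc₀' : c₀ < f * p)
    (Ω : Type w) [Field Ω] [IsAlgClosed Ω] [CharP Ω p] : H88AB.RelL f L p c₀ Ω := by
  intro a b c h hcp w χ _ m hm h2m hmp
  exact rel_self f p hp7 hpf L c₀ hc₀ hc₀' Ω a b c h hcp w χ m hm h2m (by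
    rcases hm with ⟨t, rfl⟩
    omega)

/-- the good places, over all `g` -/
noncomputable def GP {f : ℕ} [NeZero f] {K : Type*} [Field K] {n : ℕ} {Ω : Type*} [Field Ω]
    (ψ : (ZMod f)ˣ → Fin n → (𝓞 K →+* Ω)) (a b c : 𝓞 K) : Finset ((ZMod f)ˣ × Fin n) := by
  classical
  exact Finset.univ.filter (fun x => x.2 ∈ GG (ψ x.1) a b c)

theorem mem_GP {f : ℕ} [NeZero f] {K : Type*} [Field K] {n : ℕ} {Ω : Type*} [Field Ω]
    (ψ : (ZMod f)ˣ → Fin n → (𝓞 K →+* Ω)) (a b c : 𝓞 K) (x : (ZMod f)ˣ × Fin n) :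
    x ∈ GP ψ a b c ↔ ψ x.1 x.2 a ≠ 0 ∧ ψ x.1 x.2 b ≠ 0 ∧ ψ x.1 x.2 c ≠ 0 := by
  classical
  simp [GP, mem_GG]

theorem card_GP {f : ℕ} [NeZero f] {K : Type*} [Field K] {n : ℕ} {Ω : Type*} [Field Ω]
    (ψ : (ZMod f)ˣ → Fin n → (𝓞 K →+* Ω)) (a b c : 𝓞 K) :
    (GP ψ a b c).card ≤ Fintype.card (ZMod f)ˣ * n := by
  refine (Finset.card_le_univ _).trans ?_
  rw [Fintype.card_prod, Fintype.card_fin]

theorem sum_GP {f : ℕ} [NeZero f] {K : Type*} [Field K] {n : ℕ} {Ω : Type*} [Field Ω]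
    (ψ : (ZMod f)ˣ → Fin n → (𝓞 K →+* Ω)) (a b c : 𝓞 K) (χ : (ZMod f)ˣ →* Ωˣ)
    (F : (ZMod f)ˣ → Fin n → Ω) :
    ∑ x ∈ GP ψ a b c, (χ x.1 : Ω) * F x.1 x.2 = ∑ g : (ZMod f)ˣ, (χ g : Ω) * ∑ i ∈ GG (ψ g) a b c, F g i := by
  classical
  unfold GP
  rw [Finset.sum_filter, Fintype.sum_prod_type]
  refine Finset.sum_congr rfl fun g _ => ?_
  rw [Finset.mul_sum, ← Finset.sum_filter]
  simp

/-- **the mixed relation with an index set**: all characters, even `m` -/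
theorem good_rel (f p : ℕ) [NeZero f] [NeZero (f * p)] [hp : Fact p.Prime] (hp2 : p ≠ 2)
    (hpf : ¬ p ∣ f) (L : Type u) [Field L] [NumberField L] [IsCyclotomicExtension {f} ℚ L]
    (K : Type v) [Field K] [NumberField K] [Algebra L K]
    (a b c : 𝓞 K) (h : FSol K p a b c) (hcp : CopAt K p a b c)
    (Ω : Type w) [Field Ω] [IsAlgClosed Ω] [CharP Ω p] (w₀ : 𝓞 L →+* Ω)
    (ψ : (ZMod f)ˣ → Fin (Module.finrank L K) → (𝓞 K →+* Ω))
    (hψ : ∀ g, ∀ x y : 𝓞 K, (nfR L K x y).map (w₀.comp (actL f L g))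
      = ∏ i, (C (ψ g i x) + X * C (ψ g i y)))
    (c₀ : ℕ) (hc₀ : 1 ≤ c₀) (hc₀' : c₀ < f * p) (m : ℕ) (hm : Even m) (hm2 : 2 ≤ m)
    (hmp : m + Module.finrank L K + 3 ≤ p) {n' : ℕ} (e : Fin n' ≃ GP ψ a b c) (χ : (ZMod f)ˣ →* Ωˣ) :
    H99AB.beta Ω f p c₀ (m + 1) χ = 0 ∨
      ∑ v : Fin n', (χ (e v).1.1 : Ω) * H69FD.LL m (-(ψ (e v).1.1 (e v).1.2 b) / ψ (e v).1.1 (e v).1.2 a) = 0 := by
  classical
  have h1 := twisted_kummer_mixed f p hp2 hpf L K a b c h hcp Ω w₀ ψ hψ c₀ hc₀ hc₀' (m + 1)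
    hm.add_one (by omega) (by omega) χ
  rw [Nat.add_sub_cancel] at h1
  refine h1.imp id fun h2 => ?_
  rw [← h2, ← sum_GP ψ a b c χ (fun g i => H69FD.LL m (-(ψ g i b) / ψ g i a)),
    ← Finset.sum_coe_sort (GP ψ a b c), ← Equiv.sum_comp e]

/-- **symmetry of the good places**, from `H59AB.ABBadE` -/
theorem symE_mixed (f p : ℕ) [NeZero f] [NeZero (f * p)] [hp : Fact p.Prime]
    (hpf : ¬ p ∣ f) (L : Type u) [Field L] [NumberField L] [IsCyclotomicExtension {f} ℚ L]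
    (K : Type v) [Field K] [NumberField K] [Algebra L K] (hpn : 2 * Module.finrank L K + 5 ≤ p)
    (a b c : 𝓞 K) (h : FSol K p a b c) (hcp : CopAt K p a b c)
    (Ω : Type) [Field Ω] [IsAlgClosed Ω] [CharP Ω p] (w₀ : 𝓞 L →+* Ω)
    (ψ : (ZMod f)ˣ → Fin (Module.finrank L K) → (𝓞 K →+* Ω))
    (hψ : ∀ g, ∀ x y : 𝓞 K, (nfR L K x y).map (w₀.comp (actL f L g))
      = ∏ i, (C (ψ g i x) + X * C (ψ g i y)))
    (c₀ : ℕ) (hc₀ : 1 ≤ c₀) (hc₀' : c₀ < f * p) (N : ℕ)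
    (hN : Fintype.card (ZMod f)ˣ * Module.finrank L K ≤ N) (hbad : ¬ H59AB.ABBadE f c₀ N p) :
    ∃ σ : Equiv.Perm (GP ψ a b c), ∀ v, ((σ v).1.1 = v.1.1 ∨ (σ v).1.1 = -v.1.1) ∧
      (-(ψ (σ v).1.1 (σ v).1.2 b) / ψ (σ v).1.1 (σ v).1.2 a) * (-(ψ v.1.1 v.1.2 b) / ψ v.1.1 v.1.2 a) = 1 := by
  classical
  have hn1 : 0 < Module.finrank L K := by
    have : FiniteDimensional L K := Module.Finite.of_restrictScalars_finite ℚ L K
    exact Module.finrank_pos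
  set e : Fin (GP ψ a b c).card ≃ GP ψ a b c := (GP ψ a b c).equivFin.symm with he
  set T : Fin (GP ψ a b c).card → Ω := fun v => -(ψ (e v).1.1 (e v).1.2 b) / ψ (e v).1.1 (e v).1.2 a with hT
  have hT0 : ∀ v, T v ≠ 0 := by
    intro v
    obtain ⟨h1, h2, -⟩ := (mem_GP ψ a b c _).1 (e v).2
    exact div_ne_zero (neg_ne_zero.2 h2) h1
  have hT1 : ∀ v, T v ≠ 1 := by
    intro v h1
    obtain ⟨h2, -, h3⟩ := (mem_GP ψ a b c _).1 (e v).2
    simp only [hT] at h1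
    rw [div_eq_one_iff_eq h2] at h1
    have h4 := fsol_hom h (ψ (e v).1.1 (e v).1.2)
    apply h3
    linear_combination h4 + h1
  by_cases hex : ∃ σ : Equiv.Perm (Fin (GP ψ a b c).card),
      ∀ v, ((e (σ v)).1.1 = (e v).1.1 ∨ (e (σ v)).1.1 = -(e v).1.1) ∧ T (σ v) * T v = 1
  · obtain ⟨σ, hσ⟩ := hex
    refine ⟨(e.symm.trans σ).trans e, fun v => ?_⟩
    have h1 := hσ (e.symm v)
    simp only [hT, Equiv.apply_symm_apply] at h1
    exact h1
  · exfalso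
    apply hbad
    refine ⟨inferInstance, _, (card_GP ψ a b c).trans hN, Ω, inferInstance, inferInstance,
      inferInstance, fun v => (e v).1.1, T, hT0, hT1, ?_, hex⟩
    intro m hm h2m hmp χ _
    exact good_rel f p (by omega) hpf L K a b c h hcp Ω w₀ ψ hψ c₀ hc₀ hc₀' m hm h2m (by omega) e χ

end H77AB
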