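import Pool.Agent.H9.FC.OrdA
import Pool.Agent.H9.AB.DefsM

/-!
# Project AB, module Unr: from `(α β^(p-1)) = I^p` to an element prime to `p`

`unr`: in a Dedekind domain let `α β^(p-1)` generate a `p`-th power of an ideal, and let `α, β` have the same
order at all primes containing `p`.  Then there are `A, y` outside all primes containing `p` with
`A β = y^p α`, and `A` generates a `p`-th power.

`smul_sub_mem`: an automorphism `s` of `M = ℚ(ζ_m)` with `s ζ_m = ζ_m η`, `η^p = 1`, is the identity modulo all primes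
containing `p`; so `α` and `s α` have the same order there (`ordI_smul_eq`).
-/

open NumberField H9FC
open scoped Pointwise

namespace H77AB

section
variable {R : Type*} [CommRing R] [IsDedekindDomain R]

omit [IsDedekindDomain R] in
private theorem Unr_ne (p : ℕ) (hp0 : (p : R) ≠ 0) (Q : Ideal R) (hpQ : (p : R) ∈ Q) : Q ≠ ⊥ := by
  rintro rfl
  exact hp0 (by simpa using hpQ)

theorem unr (p : ℕ) (hp : 1 ≤ p) (hp0 : (p : R) ≠ 0) {α β : R} (hα : α ≠ 0) (hβ : β ≠ 0) (I : Ideal R)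
    (hI : I ^ p = Ideal.span {α * β ^ (p - 1)})
    (hv : ∀ Q : Ideal R, Q.IsPrime → (p : R) ∈ Q →
      ordI Q (Ideal.span {α}) = ordI Q (Ideal.span {β})) :
    ∃ A y : R, A * β = y ^ p * α ∧ A ≠ 0 ∧ y ≠ 0 ∧
      (∀ Q : Ideal R, Q.IsPrime → (p : R) ∈ Q → A ∉ Q ∧ y ∉ Q) ∧
      ∃ J : Ideal R, J ^ p = Ideal.span {A} := by
  classical
  have hsα : Ideal.span {α} ≠ ⊥ := by rwa [Ne, Ideal.span_singleton_eq_bot]
  have hsβ : Ideal.span {β} ≠ ⊥ := by rwa [Ne, Ideal.span_singleton_eq_bot]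
  have hαβ : α * β ^ (p - 1) ≠ 0 := mul_ne_zero hα (pow_ne_zero _ hβ)
  have hI0 : I ≠ ⊥ := by
    rintro rfl
    have h1 : (⊥ : Ideal R) ^ p = ⊥ := by
      rw [← Ideal.zero_eq_bot]
      exact zero_pow (by omega)
    rw [h1] at hI
    exact hαβ (Ideal.span_singleton_eq_bot.1 hI.symm)
  -- the order of `I`
  have hordI : ∀ Q : Ideal R, Q.IsPrime → (p : R) ∈ Q → ordI Q I = ordI Q (Ideal.span {β}) := by
    intro Q hQ hpQ
    have h1 := congrArg (ordI Q) hI
    rw [ordI_pow, ← Ideal.span_singleton_mul_span_singleton, ← Ideal.span_singleton_pow,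
      ordI_mul Q _ _ hsα (pow_ne_zero _ hsβ), ordI_pow, hv Q hQ hpQ] at h1
    obtain ⟨q, rfl⟩ : ∃ q, p = q + 1 := ⟨p - 1, by omega⟩
    rw [Nat.add_sub_cancel] at h1
    have h2 : (q + 1) * ordI Q I = (q + 1) * ordI Q (Ideal.span {β}) := by
      rw [h1]
      ring
    exact Nat.eq_of_mul_eq_mul_left (Nat.succ_pos q) h2
  -- the part of `(β)` prime to `I`
  obtain ⟨B, hB⟩ : I ⊔ Ideal.span {β} ∣ Ideal.span {β} := Ideal.dvd_iff_le.2 le_sup_right
  obtain ⟨I', hI'⟩ : I ⊔ Ideal.span {β} ∣ I := Ideal.dvd_iff_le.2 le_sup_left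
  have hG0 : I ⊔ Ideal.span {β} ≠ ⊥ := by
    intro h0
    exact hI0 (le_bot_iff.1 (h0 ▸ le_sup_left))
  have hB0 : B ≠ ⊥ := by
    rintro rfl
    exact hsβ (by rw [hB, ← Ideal.zero_eq_bot, mul_zero])
  have hBI : B * I ≤ Ideal.span {β} := by
    rw [← Ideal.dvd_iff_le]
    refine ⟨I', ?_⟩
    calc B * I = B * ((I ⊔ Ideal.span {β}) * I') := by rw [← hI']
      _ = ((I ⊔ Ideal.span {β}) * B) * I' := by ring
      _ = Ideal.span {β} * I' := by rw [← hB]
  have hBQ : ∀ Q : Ideal R, Q.IsPrime → (p : R) ∈ Q → ¬ B ≤ Q := by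
    intro Q hQ hpQ hle
    have hQ0 := Unr_ne p hp0 Q hpQ
    have h1 : 1 ≤ ordI Q B := (le_ordI_iff Q B hQ hQ0 hB0 1).2 (by rwa [pow_one])
    have h2 : ordI Q (Ideal.span {β}) ≤ ordI Q (I ⊔ Ideal.span {β}) := by
      rw [le_ordI_iff Q _ hQ hQ0 hG0]
      refine sup_le ?_ ?_
      · rw [← le_ordI_iff Q _ hQ hQ0 hI0, hordI Q hQ hpQ]
      · rw [← le_ordI_iff Q _ hQ hQ0 hsβ]
    have h3 := congrArg (ordI Q) hB
    rw [ordI_mul Q _ _ hG0 hB0] at h3
    omega
  -- prime avoidance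
  obtain ⟨y, hyB, hy0, hyQ⟩ : ∃ y ∈ B, y ≠ 0 ∧ ∀ Q : Ideal R, Q.IsPrime → (p : R) ∈ Q → y ∉ Q := by
    by_cases hex : ∃ Q : Ideal R, Q.IsPrime ∧ (p : R) ∈ Q
    swap
    · obtain ⟨y, hyB, hy0⟩ := Submodule.exists_mem_ne_zero_of_ne_bot hB0
      exact ⟨y, hyB, hy0, fun Q hQ hpQ => (hex ⟨Q, hQ, hpQ⟩).elim⟩
    have hsp : Ideal.span {(p : R)} ≠ ⊥ := by rwa [Ne, Ideal.span_singleton_eq_bot]
    set S := (UniqueFactorizationMonoid.normalizedFactors (Ideal.span {(p : R)})).toFinset with hS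
    have hmem : ∀ Q : Ideal R, Q.IsPrime → (p : R) ∈ Q → Q ∈ S := by
      intro Q hQ hpQ
      have hQ0 := Unr_ne p hp0 Q hpQ
      have h1 : 1 ≤ ordI Q (Ideal.span {(p : R)}) :=
        (le_ordI_iff Q _ hQ hQ0 hsp 1).2 (by rw [pow_one]; exact (Ideal.span_singleton_le_iff_mem _).2 hpQ)
      rw [hS, Multiset.mem_toFinset, ← Multiset.one_le_count_iff_mem]
      unfold ordI at h1
      exact h1
    have hSp : ∀ Q ∈ S, Q.IsPrime := by
      intro Q hQ
      rw [hS, Multiset.mem_toFinset] at hQ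
      exact Ideal.isPrime_of_prime (UniqueFactorizationMonoid.prime_of_normalized_factor Q hQ)
    have hSm : ∀ Q ∈ S, (p : R) ∈ Q := by
      intro Q hQ
      rw [hS, Multiset.mem_toFinset] at hQ
      have h1 := UniqueFactorizationMonoid.dvd_of_mem_normalizedFactors hQ
      exact (Ideal.span_singleton_le_iff_mem _).1 (Ideal.dvd_iff_le.1 h1)
    suffices h0 : ∃ y ∈ B, ∀ Q : Ideal R, Q.IsPrime → (p : R) ∈ Q → y ∉ Q by
      obtain ⟨y, hyB, hyQ⟩ := h0
      refine ⟨y, hyB, ?_, hyQ⟩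
      rintro rfl
      obtain ⟨Q, hQ, hpQ⟩ := hex
      exact hyQ Q hQ hpQ (Ideal.zero_mem Q)
    by_contra hcon
    push Not at hcon
    have h1 : (B : Set R) ⊆ ⋃ Q ∈ (S : Set (Ideal R)), ((fun Q => Q) Q : Ideal R) := by
      intro y hy
      obtain ⟨Q, hQ, hpQ, hyQ⟩ := hcon y hy
      simp only [Set.mem_iUnion]
      exact ⟨Q, hmem Q hQ hpQ, hyQ⟩
    have h2 := (Ideal.subset_union_prime (f := fun Q : Ideal R => Q) ⊥ ⊥ (fun Q hQ _ _ => hSp Q hQ)).1 h1
    obtain ⟨Q, hQ, hle⟩ := h2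
    exact hBQ Q (hSp Q hQ) (hSm Q hQ) hle
  have hsy : Ideal.span {y} ≠ ⊥ := by rwa [Ne, Ideal.span_singleton_eq_bot]
  obtain ⟨J, hJ⟩ : Ideal.span {β} ∣ Ideal.span {y} * I := by
    rw [Ideal.dvd_iff_le]
    exact (Ideal.mul_mono_left ((Ideal.span_singleton_le_iff_mem _).2 hyB)).trans hBI
  have h1 : Ideal.span {y ^ p * α} = Ideal.span {β} * J ^ p := by
    have h2 : Ideal.span {y ^ p * α} * Ideal.span {β} ^ (p - 1)
        = (Ideal.span {β} * J ^ p) * Ideal.span {β} ^ (p - 1) := by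
      calc Ideal.span {y ^ p * α} * Ideal.span {β} ^ (p - 1)
          = Ideal.span {y} ^ p * Ideal.span {α * β ^ (p - 1)} := by
            simp only [← Ideal.span_singleton_mul_span_singleton, ← Ideal.span_singleton_pow]
            ring
        _ = (Ideal.span {y} * I) ^ p := by rw [← hI, mul_pow]
        _ = (Ideal.span {β} * J) ^ p := by rw [hJ]
        _ = Ideal.span {β} ^ p * J ^ p := mul_pow _ _ _
        _ = (Ideal.span {β} * Ideal.span {β} ^ (p - 1)) * J ^ p := by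
            rw [← pow_succ', Nat.sub_add_cancel hp]
        _ = _ := by ring
    exact mul_right_cancel₀ (pow_ne_zero _ hsβ) h2
  obtain ⟨A, hA⟩ : β ∣ y ^ p * α := by
    rw [← Ideal.span_singleton_le_span_singleton, h1]
    exact Ideal.mul_le_left (I := Ideal.span {β}) (J := J ^ p)
  have hA0 : A ≠ 0 := by
    rintro rfl
    rw [mul_zero] at hA
    exact mul_ne_zero (pow_ne_zero _ hy0) hα hA
  have hsA : Ideal.span {A} ≠ ⊥ := by rwa [Ne, Ideal.span_singleton_eq_bot]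
  have hJA : J ^ p = Ideal.span {A} := by
    rw [hA, ← Ideal.span_singleton_mul_span_singleton] at h1
    exact (mul_left_cancel₀ hsβ h1).symm
  refine ⟨A, y, by rw [hA, mul_comm], hA0, hy0, fun Q hQ hpQ => ⟨?_, hyQ Q hQ hpQ⟩, J, hJA⟩
  have hQ0 := Unr_ne p hp0 Q hpQ
  rw [← ordI_span_eq_zero_iff Q hQ hQ0 A hA0]
  have h3 : Ideal.span {β} * Ideal.span {A} = Ideal.span {y} ^ p * Ideal.span {α} := by
    rw [Ideal.span_singleton_pow, Ideal.span_singleton_mul_span_singleton,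
      Ideal.span_singleton_mul_span_singleton, ← hA]
  have h4 := congrArg (ordI Q) h3
  rw [ordI_mul Q _ _ hsβ hsA, ordI_mul Q _ _ (pow_ne_zero _ hsy) hsα, ordI_pow,
    (ordI_span_eq_zero_iff Q hQ hQ0 y hy0).2 (hyQ Q hQ hpQ), mul_zero, zero_add, hv Q hQ hpQ] at h4
  omega

end

section
variable (m : ℕ) [NeZero m] (M : Type*) [Field M] [NumberField M] [IsCyclotomicExtension {m} ℚ M]

theorem smul_sub_mem {ζ : 𝓞 M} (hζ : IsPrimitiveRoot ζ m) (p : ℕ) [Fact p.Prime] (s : M ≃ₐ[ℚ] M) (η : 𝓞 M)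
    (hη : η ^ p = 1) (hs : s • ζ = ζ * η) (Q : Ideal (𝓞 M)) (hQ : Q.IsPrime) (hpQ : (p : 𝓞 M) ∈ Q)
    (x : 𝓞 M) : s • x - x ∈ Q := by
  have hη1 : η - 1 ∈ Q := by
    have h1 : (Ideal.Quotient.mk Q (η - 1)) ^ p = 0 := by
      have : CharP (𝓞 M ⧸ Q) p := by
        refine (CharP.charP_iff_prime_eq_zero Fact.out).2 ?_
        rw [← map_natCast (Ideal.Quotient.mk Q), Ideal.Quotient.eq_zero_iff_mem]
        exact hpQ
      rw [map_sub, map_one, sub_pow_char, one_pow, ← map_pow, hη, map_one, sub_self]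
    have h2 := pow_eq_zero_iff (Fact.out : p.Prime).ne_zero |>.1 h1
    rwa [Ideal.Quotient.eq_zero_iff_mem] at h2
  have htop : Algebra.adjoin ℤ {ζ} = (⊤ : Subalgebra ℤ (𝓞 M)) := by
    have h := IsCyclotomicExtension.Rat.adjoin_singleton_eq_top
      (hζ.map_of_injective (f := algebraMap (𝓞 M) M) RingOfIntegers.coe_injective)
    rwa [IsPrimitiveRoot.toInteger_coe] at h
  have hx : x ∈ Algebra.adjoin ℤ {ζ} := by rw [htop]; exact Algebra.mem_top
  induction hx using Algebra.adjoin_induction with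
  | mem x hx =>
    rw [Set.mem_singleton_iff] at hx
    rw [hx, hs]
    have : ζ * η - ζ = ζ * (η - 1) := by ring
    rw [this]
    exact Q.mul_mem_left _ hη1
  | algebraMap r =>
    have : s • (algebraMap ℤ (𝓞 M) r) = algebraMap ℤ (𝓞 M) r := by
      rw [Algebra.algebraMap_eq_smul_one, smul_comm, smul_one]
    rw [this, sub_self]
    exact Q.zero_mem
  | add x y _ _ hx hy =>
    have : s • (x + y) - (x + y) = (s • x - x) + (s • y - y) := by
      rw [smul_add]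
      ring
    rw [this]
    exact Q.add_mem hx hy
  | mul x y _ _ hx hy =>
    have : s • (x * y) - x * y = (s • x) * (s • y - y) + (s • x - x) * y := by
      rw [smul_mul']
      ring
    rw [this]
    exact Q.add_mem (Q.mul_mem_left _ hy) (Q.mul_mem_right _ hx)

/-- `s` has the inertia property at the primes containing `p`: orders at these primes are preserved -/
theorem ordI_smul_eq {ζ : 𝓞 M} (hζ : IsPrimitiveRoot ζ m) (p : ℕ) [Fact p.Prime] (s : M ≃ₐ[ℚ] M) (η : 𝓞 M)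
    (hη : η ^ p = 1) (hs : s • ζ = ζ * η) (Q : Ideal (𝓞 M)) (hQ : Q.IsPrime) (hpQ : (p : 𝓞 M) ∈ Q)
    (x : 𝓞 M) : ordI Q (Ideal.span {s • x}) = ordI Q (Ideal.span {x}) := by
  have hQ0 : Q ≠ ⊥ := Unr_ne p (Nat.cast_ne_zero.2 (Fact.out : p.Prime).ne_zero) Q hpQ
  have hsQ : s • Q = Q := by
    ext z
    rw [Ideal.mem_pointwise_smul_iff_inv_smul_mem]
    have h1 := smul_sub_mem m M hζ p s η hη hs Q hQ hpQ (s⁻¹ • z)
    rw [smul_inv_smul] at h1
    constructor
    · intro h2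
      have h3 := Q.add_mem h1 h2
      rwa [sub_add_cancel] at h3
    · intro h2
      have h3 := Q.sub_mem h2 h1
      rwa [sub_sub_cancel] at h3
  have hsp : s • (Ideal.span {x} : Ideal (𝓞 M)) = Ideal.span {s • x} := by
    change Ideal.map (MulSemiringAction.toRingHom (M ≃ₐ[ℚ] M) (𝓞 M) s) (Ideal.span {x}) = _
    rw [Ideal.map_span, Set.image_singleton]
    rfl
  rw [← hsp]
  conv_lhs => rw [← hsQ]
  exact ordI_smul s Q _ hQ hQ0

end

end H77AB
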