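import Pool.Agent.H9.AB.RelPow
import Pool.Agent.H77.AB.Unr

/-!
# Project AB, module Mix: the element of `ℚ(ζ_(fp))` attached to an arbitrary solution

`L = ℚ(ζ_f) ⊆ K`, `M = ℚ(ζ_(fp))`, `P = nfR L K a b`, `ζ = ζ_(fp)^f`.  For any solution `(a, b, c)`
(no condition at the primes above `p`) there are `A, y ∈ 𝓞 M` outside all primes containing `p` such that
`A P(ζ⁻¹) = y^p P(ζ)` and `(A)` is a `p`-th power of an ideal.

PROOF.  Away from `p` all the `v(σ a + μ σ b)`, `μ^p = 1`, are congruent modulo `p`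
(`H9AB.RelPow`); at `p` the automorphism `s : ζ ↦ ζ⁻¹` over `L` preserves all the primes, so
`P(ζ)` and `P(ζ⁻¹) = s P(ζ)` have the same order.  So `P(ζ) P(ζ⁻¹)^(p-1)` generates a `p`-th power in a
field `N ⊇ M` with `p ∤ [N : M]`; descend, and `unr`.
-/

open Polynomial NumberField H9FC H9AB
open scoped Pointwise

namespace H77AB

universe u v w

private theorem Mix_ne {R : Type*} [CommRing R] [IsDomain R] (p : ℕ) [Fact p.Prime]
    (hp : p ≠ 2) {ζ : R} (hζ : ζ ^ p = 1) {α β γ : R} (h : α ^ p + β ^ p = γ ^ p)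
    (hγ0 : γ ≠ 0) : α + ζ * β ≠ 0 := by
  intro h0
  have hodd : Odd p := Nat.Prime.odd_of_ne_two Fact.out hp
  have hα : α = -(ζ * β) := eq_neg_of_add_eq_zero_left h0
  rw [hα, hodd.neg_pow, mul_pow, hζ, one_mul, neg_add_cancel] at h
  exact hγ0 ((pow_eq_zero_iff (Nat.Prime.ne_zero Fact.out)).1 h.symm)

/-- away from `p`: the product over two `p`-th roots of unity -/
theorem ord_two {R : Type*} [CommRing R] [IsDedekindDomain R] (p : ℕ) [Fact p.Prime]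
    (hp : p ≠ 2) {ζ : R} (hζ : IsPrimitiveRoot ζ p) {α β γ : R} (h : α ^ p + β ^ p = γ ^ p)
    (hγ0 : γ ≠ 0) (P : Ideal R) (hP : P.IsPrime) (hP0 : P ≠ ⊥) (hpP : (p : R) ∉ P) :
    p ∣ ordI P (Ideal.span {(α + ζ * β) * (α + ζ ^ (p - 1) * β) ^ (p - 1)}) := by
  have hpos : 0 < p := Nat.Prime.pos Fact.out
  have hpp : p.Prime := Fact.out
  have h1 := ord_one p hp hζ h hγ0 P hP hP0 hpP
  have hcop : (p - 1).Coprime p := (Nat.coprime_self_sub_left hpp.one_le).2 (Nat.coprime_one_left p)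
  have hζ' : IsPrimitiveRoot (ζ ^ (p - 1)) p := hζ.pow_of_coprime (p - 1) hcop
  have h2 := ord_one p hp hζ' h hγ0 P hP hP0 hpP
  have e1 : Ideal.span {α + ζ * β} ≠ ⊥ := by
    rw [Ne, Ideal.span_singleton_eq_bot]
    exact Mix_ne p hp hζ.pow_eq_one h hγ0
  have e2 : Ideal.span {α + ζ ^ (p - 1) * β} ≠ ⊥ := by
    rw [Ne, Ideal.span_singleton_eq_bot]
    exact Mix_ne p hp hζ'.pow_eq_one h hγ0
  have e3 : Ideal.span {α + β} ≠ ⊥ := by
    rw [Ne, Ideal.span_singleton_eq_bot]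
    have := Mix_ne p hp (one_pow p) h hγ0
    rwa [one_mul] at this
  rw [← Ideal.span_singleton_mul_span_singleton, ← Ideal.span_singleton_pow,
    ordI_mul P _ _ e1 (pow_ne_zero _ e3), ordI_pow] at h1
  rw [← Ideal.span_singleton_mul_span_singleton, ← Ideal.span_singleton_pow,
    ordI_mul P _ _ e2 (pow_ne_zero _ e3), ordI_pow] at h2
  rw [← Ideal.span_singleton_mul_span_singleton, ← Ideal.span_singleton_pow,
    ordI_mul P _ _ e1 (pow_ne_zero _ e2), ordI_pow]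
  rw [← ZMod.natCast_eq_zero_iff] at h1 h2 ⊢
  have h3 : ((p - 1 : ℕ) : ZMod p) = -1 := by
    rw [Nat.cast_sub (show 1 ≤ p from hpos), ZMod.natCast_self, Nat.cast_one, zero_sub]
  rw [Nat.cast_add, Nat.cast_mul, h3] at h1 h2 ⊢
  linear_combination h1 - h2

theorem pow_ideal_gen (L : Type u) [Field L] [NumberField L] (K : Type v) [Field K]
    [NumberField K] [Algebra L K] (p : ℕ) [Fact p.Prime]
    (hp : p ≠ 2) (hd : Module.finrank L K < p) (a b c : 𝓞 K) (h : FSol K p a b c)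
    (M : Type w) [Field M] [NumberField M] [Algebra L M] {ζ : 𝓞 M} (hζ : IsPrimitiveRoot ζ p)
    (hord : ∀ Q : Ideal (𝓞 M), Q.IsPrime → (p : 𝓞 M) ∈ Q →
      ordI Q (Ideal.span {(nfR L K a b).eval₂ (algebraMap (𝓞 L) (𝓞 M)) ζ}) =
      ordI Q (Ideal.span {(nfR L K a b).eval₂ (algebraMap (𝓞 L) (𝓞 M)) (ζ ^ (p - 1))})) :
    (nfR L K a b).eval₂ (algebraMap (𝓞 L) (𝓞 M)) ζ ≠ 0 ∧
    (nfR L K a b).eval₂ (algebraMap (𝓞 L) (𝓞 M)) (ζ ^ (p - 1)) ≠ 0 ∧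
    ∃ I : Ideal (𝓞 M), I ^ p = Ideal.span {(nfR L K a b).eval₂ (algebraMap (𝓞 L) (𝓞 M)) ζ *
        ((nfR L K a b).eval₂ (algebraMap (𝓞 L) (𝓞 M)) (ζ ^ (p - 1))) ^ (p - 1)} := by
  classical
  have hpp : p.Prime := Fact.out
  have hodd : Odd p := hpp.odd_of_ne_two hp
  obtain ⟨N, _, _, _, _, hT, hN, hcard⟩ := exists_relEnv L K p hd M
  obtain ⟨ha, hb, hc0, habc⟩ := h
  set F := nfR L K a b with hF
  set Z : 𝓞 N := algebraMap (𝓞 M) (𝓞 N) ζ with hZ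
  have hinj : Function.Injective (algebraMap (𝓞 M) (𝓞 N)) :=
    FaithfulSMul.algebraMap_injective (𝓞 M) (𝓞 N)
  have hZp : IsPrimitiveRoot Z p := hζ.map_of_injective hinj
  have hcop : (p - 1).Coprime p := (Nat.coprime_self_sub_left hpp.one_le).2 (Nat.coprime_one_left p)
  have hZp' : IsPrimitiveRoot (Z ^ (p - 1)) p := hZp.pow_of_coprime (p - 1) hcop
  set α : (K →ₐ[L] N) → 𝓞 N := fun σ => RingOfIntegers.mapRingHom (σ : K →+* N) a with hα
  set β : (K →ₐ[L] N) → 𝓞 N := fun σ => RingOfIntegers.mapRingHom (σ : K →+* N) b with hβ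
  set γ : (K →ₐ[L] N) → 𝓞 N := fun σ => - RingOfIntegers.mapRingHom (σ : K →+* N) c with hγ
  have hfer : ∀ σ, α σ ^ p + β σ ^ p = γ σ ^ p := by
    intro σ
    have h1 := congrArg (RingOfIntegers.mapRingHom (σ : K →+* N)) habc
    rw [map_add, map_add, map_pow, map_pow, map_pow, map_zero] at h1
    rw [hγ]
    change α σ ^ p + β σ ^ p = (- RingOfIntegers.mapRingHom (σ : K →+* N) c) ^ p
    rw [hodd.neg_pow]
    exact eq_neg_of_add_eq_zero_left h1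
  have hγ0 : ∀ σ, γ σ ≠ 0 := by
    intro σ h1
    have h2 : RingOfIntegers.mapRingHom (σ : K →+* N) c = 0 := neg_eq_zero.1 h1
    have h3 : (σ : K →+* N) (c : K) = 0 := by
      have := congrArg (fun t : 𝓞 N => (t : N)) h2
      exact this
    have h4 : (c : K) = 0 := (map_eq_zero _).1 h3
    exact hc0 (RingOfIntegers.coe_injective (h4.trans (map_zero (algebraMap (𝓞 K) K)).symm))
  have hmapT : ∀ z : 𝓞 M, algebraMap (𝓞 M) (𝓞 N) (F.eval₂ (algebraMap (𝓞 L) (𝓞 M)) z) =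
      ∏ σ, (α σ + algebraMap (𝓞 M) (𝓞 N) z * β σ) := by
    intro z
    rw [Polynomial.hom_eval₂]
    have h1 : (algebraMap (𝓞 M) (𝓞 N)).comp (algebraMap (𝓞 L) (𝓞 M)) =
        algebraMap (𝓞 L) (𝓞 N) := by
      ext x
      show algebraMap M N (algebraMap L M (x : L)) = algebraMap L N (x : L)
      exact (IsScalarTower.algebraMap_apply L M N _).symm
    rw [h1, hF, nfR_eval_prod L K N hcard]
  set x₁ : 𝓞 M := F.eval₂ (algebraMap (𝓞 L) (𝓞 M)) ζ with hx₁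
  set x₂ : 𝓞 M := F.eval₂ (algebraMap (𝓞 L) (𝓞 M)) (ζ ^ (p - 1)) with hx₂
  have hf1 : ∀ σ, α σ + Z * β σ ≠ 0 := fun σ => Mix_ne p hp hZp.pow_eq_one (hfer σ) (hγ0 σ)
  have hf2 : ∀ σ, α σ + Z ^ (p - 1) * β σ ≠ 0 := fun σ =>
    Mix_ne p hp hZp'.pow_eq_one (hfer σ) (hγ0 σ)
  have hx₁N : algebraMap (𝓞 M) (𝓞 N) x₁ = ∏ σ, (α σ + Z * β σ) := hmapT ζ
  have hx₂N : algebraMap (𝓞 M) (𝓞 N) x₂ = ∏ σ, (α σ + Z ^ (p - 1) * β σ) := by
    rw [hx₂, hmapT, map_pow]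
  have hx₁0 : x₁ ≠ 0 := by
    intro h0
    rw [h0, map_zero] at hx₁N
    exact Finset.prod_ne_zero_iff.2 (fun σ _ => hf1 σ) hx₁N.symm
  have hx₂0 : x₂ ≠ 0 := by
    intro h0
    rw [h0, map_zero] at hx₂N
    exact Finset.prod_ne_zero_iff.2 (fun σ _ => hf2 σ) hx₂N.symm
  refine ⟨hx₁0, hx₂0, ?_⟩
  set x : 𝓞 M := x₁ * x₂ ^ (p - 1) with hx
  have hx0 : x ≠ 0 := mul_ne_zero hx₁0 (pow_ne_zero _ hx₂0)
  have hxN : algebraMap (𝓞 M) (𝓞 N) x =
      ∏ σ, ((α σ + Z * β σ) * (α σ + Z ^ (p - 1) * β σ) ^ (p - 1)) := by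
    rw [hx, map_mul, map_pow, hx₁N, hx₂N, Finset.prod_mul_distrib, Finset.prod_pow]
  have hxN0 : algebraMap (𝓞 M) (𝓞 N) x ≠ 0 := by
    intro h0
    exact hx0 (hinj (h0.trans (map_zero _).symm))
  have hs1 : Ideal.span {x₁} ≠ ⊥ := by rwa [Ne, Ideal.span_singleton_eq_bot]
  have hs2 : Ideal.span {x₂} ≠ ⊥ := by rwa [Ne, Ideal.span_singleton_eq_bot]
  have hsx : Ideal.span {x} ≠ ⊥ := by rwa [Ne, Ideal.span_singleton_eq_bot]
  have hmap : (Ideal.span {x}).map (algebraMap (𝓞 M) (𝓞 N)) =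
      Ideal.span {algebraMap (𝓞 M) (𝓞 N) x} := by
    rw [Ideal.map_span, Set.image_singleton]
  have hall : ∀ Q : Ideal (𝓞 N), Q.IsPrime → Q ≠ ⊥ →
      p ∣ ordI Q (Ideal.span {algebraMap (𝓞 M) (𝓞 N) x}) := by
    intro Q hQ hQ0
    by_cases hpQ : (p : 𝓞 N) ∈ Q
    · rw [← hmap, ordI_algebraMap M N Q hQ hQ0 _ hsx]
      refine Dvd.dvd.mul_left ?_ _
      have hq : (Q.comap (algebraMap (𝓞 M) (𝓞 N))).IsPrime := Ideal.comap_isPrime _ _
      have hpq : (p : 𝓞 M) ∈ Q.comap (algebraMap (𝓞 M) (𝓞 N)) := by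
        rw [Ideal.mem_comap, map_natCast]
        exact hpQ
      rw [hx, ← Ideal.span_singleton_mul_span_singleton, ← Ideal.span_singleton_pow,
        ordI_mul _ _ _ hs1 (pow_ne_zero _ hs2), ordI_pow, hord _ hq hpq]
      refine ⟨ordI (Q.comap (algebraMap (𝓞 M) (𝓞 N))) (Ideal.span {x₂}), ?_⟩
      obtain ⟨q, rfl⟩ : ∃ q, p = q + 1 := ⟨p - 1, by have := hpp.one_le; omega⟩
      rw [Nat.add_sub_cancel]
      ring
    · rw [hxN, ← Ideal.prod_span_singleton, ordI_prod]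
      · refine Finset.dvd_sum fun σ _ => ?_
        exact ord_two p hp hZp (hfer σ) (hγ0 σ) Q hQ hQ0 hpQ
      · intro σ _ h1
        exact mul_ne_zero (hf1 σ) (pow_ne_zero _ (hf2 σ)) (Ideal.span_singleton_eq_bot.1 h1)
  obtain ⟨J, hJ⟩ := exists_pow_of_dvd_ordI p hpp.ne_zero _
    (fun h1 => hxN0 (Ideal.span_singleton_eq_bot.1 h1)) hall
  exact descend M N p hN (Ideal.span {x}) J (by rw [hJ, hmap])

end H77AB
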