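import Pool.Agent.H45.KC.DJ

/-!
# Project AB, module MixVal: the logarithmic derivatives of the element of `Mix`

In `k[X]`, `k` of characteristic `p`: let `A F(X^(f(p-1))) ≡ c F(X^f)` modulo `(X-1)^(p-1)`, where
`F = (X-1)^μ H`, `H(1) ≠ 0`, `c ≠ 0`.  Then `DL j A = 2 f^j DL j H` for odd `j`, `3 ≤ j < p - 1 - μ`.

PROOF.  `X^f (X^(f(p-1)) - 1) ≡ - (X^f - 1)` modulo `(X-1)^p`; so
`(X^f - 1)^μ ((-1)^μ A H(X^(f(p-1))) - c X^(fμ) H(X^f)) ≡ 0` modulo `(X-1)^(p-1)`, and `X^f - 1` is `X - 1`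
times a polynomial prime to `X - 1`.
-/

open Polynomial

namespace H77AB

open H45KC

section
variable {k : Type*} [Field k]

private theorem MixVal_X1 : (X - 1 : k[X]) ≠ 0 := by
  have := X_sub_C_ne_zero (1 : k)
  rwa [C_1] at this

/-- cancellation of `(X^f - 1)^μ` -/
private theorem MixVal_cancel {p : ℕ} [Fact p.Prime] [CharP k p] {f : ℕ} (hf : ¬ p ∣ f) (μ N : ℕ)
    (W : k[X]) (h : (X - 1) ^ N ∣ (X ^ f - 1) ^ μ * W) : (X - 1) ^ (N - μ) ∣ W := by
  set S : k[X] := ∑ i ∈ Finset.range f, X ^ i with hS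
  have hXf : (X ^ f - 1 : k[X]) = (X - 1) * S := by
    have := geom_sum_mul (X : k[X]) f
    rw [← this, hS, mul_comm]
  have hS1 : S.eval 1 ≠ 0 := by
    rw [hS, eval_finsetSum]
    simp only [eval_pow, eval_X, one_pow, Finset.sum_const, Finset.card_range, nsmul_eq_mul, mul_one]
    intro h0
    exact hf ((CharP.cast_eq_zero_iff k p f).1 h0)
  have hcop : IsCoprime (X - 1 : k[X]) S := by
    have h1 : (X - 1 : k[X]) = X - C 1 := by rw [C_1]
    rw [h1]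
    refine (irreducible_X_sub_C (1 : k)).coprime_iff_not_dvd.2 ?_
    rw [dvd_iff_isRoot]
    exact hS1
  rw [hXf, mul_pow, mul_assoc] at h
  rcases Nat.lt_or_ge N μ with h1 | h1
  · rw [Nat.sub_eq_zero_of_le h1.le, pow_zero]
    exact one_dvd _
  · have h2 : (X - 1 : k[X]) ^ N = (X - 1) ^ μ * (X - 1) ^ (N - μ) := by
      rw [← pow_add, Nat.add_sub_cancel' h1]
    rw [h2] at h
    have h3 := (mul_dvd_mul_iff_left (pow_ne_zero μ (MixVal_X1 (k := k)))).1 h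
    exact (hcop.pow (m := N - μ) (n := μ)).dvd_of_dvd_mul_left h3

theorem mix_val {p : ℕ} [Fact p.Prime] [CharP k p] (hp2 : p ≠ 2) {f : ℕ} (hf : ¬ p ∣ f) (A H : k[X])
    (μ : ℕ) (e : k) (he : e ≠ 0) (hA : A.eval 1 ≠ 0) (hH : H.eval 1 ≠ 0)
    (h : (X - 1) ^ (p - 1) ∣ A * ((X - 1) ^ μ * H).comp (X ^ (f * (p - 1)))
      - C e * ((X - 1) ^ μ * H).comp (X ^ f))
    (j : ℕ) (hj : Odd j) (hj3 : 3 ≤ j) (hjμ : j + μ + 2 ≤ p) :
    DL j A = 2 * (f : k) ^ j * DL j H := by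
  have hpp : p.Prime := Fact.out
  have hp1 : 1 ≤ p := hpp.one_le
  set Y : k[X] := X ^ (f * (p - 1)) with hY
  -- `X^f (Y - 1) ≡ -(X^f - 1)`
  have hY1 : (X - 1 : k[X]) ^ (p - 1) ∣ X ^ f * (Y - 1) + (X ^ f - 1) := by
    have h1 : X ^ f * (Y - 1) + (X ^ f - 1) = (X ^ f - 1 : k[X]) ^ p := by
      rw [sub_pow_char, one_pow, hY, mul_sub, ← pow_add, ← pow_mul, mul_one]
      have h2 : f + f * (p - 1) = f * p := by
        obtain ⟨q, rfl⟩ : ∃ q, p = q + 1 := ⟨p - 1, by omega⟩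
        rw [Nat.add_sub_cancel]
        ring
      rw [h2]
      ring
    rw [h1]
    refine (pow_dvd_pow _ (by omega : p - 1 ≤ p)).trans (pow_dvd_pow_of_dvd ?_ _)
    have h3 := sub_dvd_pow_sub_pow (X : k[X]) 1 f
    rwa [one_pow] at h3
  have hpow : (X - 1 : k[X]) ^ (p - 1) ∣ (X ^ f * (Y - 1)) ^ μ - (-(X ^ f - 1)) ^ μ := by
    refine hY1.trans ?_
    have h3 := sub_dvd_pow_sub_pow (X ^ f * (Y - 1) : k[X]) (-(X ^ f - 1)) μ
    rwa [sub_neg_eq_add] at h3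
  simp only [mul_comp, pow_comp, sub_comp, X_comp, one_comp] at h
  set HY : k[X] := H.comp Y with hHY
  set Hf : k[X] := H.comp (X ^ f) with hHf
  have h4 : (X - 1 : k[X]) ^ (p - 1) ∣
      (X ^ f - 1) ^ μ * ((-1) ^ μ * A * HY - C e * (X ^ f) ^ μ * Hf) := by
    have h5 := dvd_sub (h.mul_left ((X ^ f) ^ μ)) (hpow.mul_right (A * HY))
    have h6 : (X ^ f) ^ μ * (A * ((Y - 1) ^ μ * HY) - C e * ((X ^ f - 1) ^ μ * Hf)) -
        ((X ^ f * (Y - 1)) ^ μ - (-(X ^ f - 1)) ^ μ) * (A * HY)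
        = (X ^ f - 1) ^ μ * ((-1) ^ μ * A * HY - C e * (X ^ f) ^ μ * Hf) := by
      rw [neg_pow (X ^ f - 1 : k[X]) μ, mul_pow]
      ring
    rwa [h6] at h5
  have h7 := MixVal_cancel hf μ (p - 1) _ h4
  have h8 : (X - 1 : k[X]) ^ (j + 1) ∣ (-1) ^ μ * A * HY - C e * (X ^ f) ^ μ * Hf :=
    (pow_dvd_pow _ (by omega)).trans h7
  have h9 := DL_congr j (by omega) _ _ h8
  have hj1 : 1 ≤ j := by omega
  have hHYe : HY.eval 1 ≠ 0 := by
    rw [hHY, hY, eval_comp, eval_pow, eval_X, one_pow]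
    exact hH
  have hHfe : Hf.eval 1 ≠ 0 := by
    rw [hHf, eval_comp, eval_pow, eval_X, one_pow]
    exact hH
  have hm1 : ((-1 : k[X]) ^ μ) = C ((-1) ^ μ) := by
    rw [C_pow, C_neg, C_1]
  have hm10 : ((-1 : k) ^ μ) ≠ 0 := pow_ne_zero _ (neg_ne_zero.2 one_ne_zero)
  have hcm : ((f * (p - 1) : ℕ) : k) = - (f : k) := by
    rw [Nat.cast_mul, Nat.cast_sub hp1, CharP.cast_eq_zero k p, Nat.cast_one]
    ring
  rw [hm1, DL_mul j hj1 _ _ (by rw [eval_mul, eval_C]; exact mul_ne_zero hm10 hA) hHYe,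
    DL_mul j hj1 _ _ (by rw [eval_C]; exact hm10) hA, DL_C j hj1,
    DL_mul j hj1 _ _ (by
      rw [eval_mul, eval_C, eval_pow, eval_pow, eval_X, one_pow, one_pow, mul_one]
      exact he) hHfe,
    DL_mul j hj1 _ _ (by rw [eval_C]; exact he) (by
      rw [eval_pow, eval_pow, eval_X, one_pow, one_pow]
      exact one_ne_zero), DL_C j hj1, ← pow_mul, DL_pow j hj1 _ (by
        rw [eval_X]
        exact one_ne_zero), DL_X j (by omega), hHY, hY, hHf, DL_comp j hj1, DL_comp j hj1, hcm,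
    hj.neg_pow] at h9
  linear_combination h9

/-- the logarithmic derivative of order `j ≥ 2` of a product of linear factors: only the factors
`a + b X` with `a, b ≠ 0` contribute -/
theorem DL_lin_prod {ι : Type*} (s : Finset ι) (a b : ι → k) (h0 : ∀ i ∈ s, a i + b i ≠ 0)
    (j : ℕ) (hj : 2 ≤ j) [DecidableEq k] :
    DL j (∏ i ∈ s, (C (a i) + X * C (b i)))
      = ∑ i ∈ s.filter (fun i => a i ≠ 0 ∧ b i ≠ 0), DL j (C (a i) + X * C (b i)) := by
  have h1 := DL_prod j (by omega) s (fun i => (C (a i) + X * C (b i) : k[X])) (fun _ => 1) (by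
    intro i hi
    simpa using h0 i hi)
  simp only [pow_one, Nat.cast_one, one_mul] at h1
  rw [h1, Finset.sum_filter]
  refine Finset.sum_congr rfl fun i hi => ?_
  split_ifs with h
  · rfl
  · have h2 := h0 i hi
    by_cases ha : a i = 0
    · rw [ha, zero_add] at h2
      rw [ha, C_0, zero_add, DL_mul j (by omega) _ _ (by simp) (by simpa using h2),
        DL_C j (by omega), DL_X j hj, add_zero]
    · have hb : b i = 0 := by
        by_contra hb
        exact h ⟨ha, hb⟩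
      rw [hb, C_0, mul_zero, add_zero, DL_C j (by omega)]

end

end H77AB
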