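import Pool.Agent.H9.AB.RelA
import Pool.Agent.H77.AB.Mix
import Pool.Agent.H77.AB.MixVal

/-!
# Project AB, module MixRel: the twisted Kummer relations for ALL solutions

As in `H9AB.RelA`, but for an arbitrary solution `(a, b, c)` (coprime at `p`), for odd `j` and even characters:

  `∑_t ⌊c₀ t/(f p)⌋ t^{-j} χ(t) = 0`  or  `∑_g χ(g) ∑_{i good} L_{j-1}(-ψ g i b / ψ g i a) = 0`,

where `i` is good for `g` if none of `ψ g i a`, `ψ g i b`, `ψ g i c` vanishes.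

PROOF.  `A` of `Mix` (`A P(ζ⁻¹) = y^p P(ζ)`, `(A) = J^p`, `A` prime to `p`) instead of `P(ζ) P(1)^(p-1)`; the
logarithmic derivatives of `A` of odd order are `2 f^j` times those of the part of `w(P)` prime to `X - 1`
(`mix_val`), to which only the good places contribute (`DL_lin_prod`).
-/

namespace H77AB

open Polynomial NumberField H9FC H45KC H9AB
open scoped Pointwise

universe u v w

section elem

variable (f p : ℕ) [NeZero f] [NeZero (f * p)] (L : Type u) [Field L] [NumberField L]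
    [IsCyclotomicExtension {f} ℚ L] (M : Type w) [Field M] [NumberField M]
    [IsCyclotomicExtension {f * p} ℚ M] [Algebra L M]

/-- the automorphism `ζ_p ↦ ζ_p⁻¹` over `L` -/
theorem exists_inv [hp : Fact p.Prime] (hpf : ¬ p ∣ f) {ζ : 𝓞 M} (hζ : IsPrimitiveRoot ζ (f * p)) :
    ∃ (s : M ≃ₐ[ℚ] M) (η : 𝓞 M), η ^ p = 1 ∧ s • ζ = ζ * η ∧ s • (ζ ^ f) = (ζ ^ f) ^ (p - 1) ∧
      ∀ x : 𝓞 L, s • (algebraMap (𝓞 L) (𝓞 M) x) = algebraMap (𝓞 L) (𝓞 M) x := by
  have hpp : p.Prime := hp.out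
  have hf0 : 0 < f := NeZero.pos f
  have hcop : Nat.Coprime f p := ((Nat.Prime.coprime_iff_not_dvd hpp).2 hpf).symm
  obtain ⟨t, ht1, ht2⟩ := Nat.chineseRemainder hcop 1 (p - 1)
  have htf : Nat.Coprime t f := by
    have h1 : Nat.gcd t f = Nat.gcd 1 f := Nat.ModEq.gcd_eq ht1
    rw [Nat.Coprime, h1, Nat.gcd_one_left]
  have htp : Nat.Coprime t p := by
    have h1 : Nat.gcd t p = Nat.gcd (p - 1) p := Nat.ModEq.gcd_eq ht2
    have h2 : (p - 1).Coprime p := (Nat.coprime_self_sub_left hpp.one_le).2 (Nat.coprime_one_left p)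
    rw [Nat.Coprime, h1]
    exact h2
  have htm : Nat.Coprime t (f * p) := Nat.Coprime.mul_right htf htp
  set u : (ZMod (f * p))ˣ := ZMod.unitOfCoprime t htm with hu
  set s : M ≃ₐ[ℚ] M := (IsCyclotomicExtension.Rat.galEquivZMod (f * p) M).symm u with hs
  have hsu : IsCyclotomicExtension.Rat.galEquivZMod (f * p) M s = u := by
    rw [hs, MulEquiv.apply_symm_apply]
  set n : ℕ := u.val.val with hn
  have hnt : n = t % (f * p) := by
    rw [hn, hu, ZMod.coe_unitOfCoprime, ZMod.val_natCast]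
  have hn1 : n ≡ 1 [MOD f] := by
    have h1 : n ≡ t [MOD f * p] := by rw [hnt]; exact Nat.mod_modEq _ _
    exact (h1.of_dvd (dvd_mul_right f p)).trans ht1
  have hn2 : n ≡ p - 1 [MOD p] := by
    have h1 : n ≡ t [MOD f * p] := by rw [hnt]; exact Nat.mod_modEq _ _
    exact (h1.of_dvd (dvd_mul_left p f)).trans ht2
  have hn0 : 1 ≤ n := by
    by_contra h0
    have h1 : n = 0 := by omega
    rw [h1] at hn2
    have h2 : (p - 1) % p = 0 := hn2.symm
    have h3 := hpp.two_le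
    rw [Nat.mod_eq_of_lt (by omega)] at h2
    omega
  have hfn : f ∣ n - 1 := (Nat.modEq_iff_dvd' hn0).1 hn1.symm
  have hsz : s • ζ = ζ ^ n := by
    have h4 := IsCyclotomicExtension.Rat.galEquivZMod_smul_of_pow_eq (f * p) M s hζ.pow_eq_one
    rw [hsu] at h4
    exact h4
  have hζp : (ζ ^ f) ^ p = 1 := by rw [← pow_mul]; exact hζ.pow_eq_one
  refine ⟨s, ζ ^ (n - 1), ?_, ?_, ?_, ?_⟩
  · obtain ⟨r, hr⟩ := hfn
    rw [hr, ← pow_mul, show f * r * p = (f * p) * r by ring, pow_mul, hζ.pow_eq_one, one_pow]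
  · rw [hsz, ← pow_succ', Nat.sub_add_cancel hn0]
  · rw [smul_pow', hsz, ← pow_mul, mul_comm n f, pow_mul]
    exact pow_eq_pow_of_modEq hn2 hζp
  · intro x
    have hx := mem_adjoin f p L M hζ x
    generalize algebraMap (𝓞 L) (𝓞 M) x = w at hx
    induction hx using Algebra.adjoin_induction with
    | mem z hz =>
      rw [Set.mem_singleton_iff] at hz
      rw [hz, smul_pow', hsz, ← pow_mul]
      have h5 : n * p = p + (n - 1) * p := by
        obtain ⟨r, hr⟩ : ∃ r, n = r + 1 := ⟨n - 1, by omega⟩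
        rw [hr, Nat.add_sub_cancel]
        ring
      rw [h5, pow_add]
      obtain ⟨r, hr⟩ := hfn
      rw [hr, show f * r * p = (f * p) * r by ring, pow_mul ζ (f * p) r, hζ.pow_eq_one, one_pow,
        mul_one]
    | algebraMap r =>
      rw [Algebra.algebraMap_eq_smul_one, smul_comm, smul_one]
    | add x y _ _ hx hy => rw [smul_add, hx, hy]
    | mul x y _ _ hx hy => rw [smul_mul', hx, hy]

/-- the element attached to an arbitrary solution -/
theorem exists_mix (K : Type v) [Field K] [NumberField K] [Algebra L K] [hp : Fact p.Prime]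
    (hp2 : p ≠ 2) (hpf : ¬ p ∣ f) (hd : Module.finrank L K < p) (a b c : 𝓞 K)
    (h : FSol K p a b c) {ζ : 𝓞 M} (hζ : IsPrimitiveRoot ζ (f * p)) :
    ∃ (A y : 𝓞 M), A * (nfR L K a b).eval₂ (algebraMap (𝓞 L) (𝓞 M)) ((ζ ^ f) ^ (p - 1))
        = y ^ p * (nfR L K a b).eval₂ (algebraMap (𝓞 L) (𝓞 M)) (ζ ^ f) ∧
      (∀ Q : Ideal (𝓞 M), Q.IsPrime → (p : 𝓞 M) ∈ Q → A ∉ Q ∧ y ∉ Q) ∧
      ∃ J : Ideal (𝓞 M), J ^ p = Ideal.span {A} := by
  have hpp : p.Prime := hp.out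
  obtain ⟨s, η, hη, hs, hsf, hsL⟩ := exists_inv f p L M hpf hζ
  have hζp : IsPrimitiveRoot (ζ ^ f) p := hζ.pow (NeZero.pos _) rfl
  have hsF : s • ((nfR L K a b).eval₂ (algebraMap (𝓞 L) (𝓞 M)) (ζ ^ f))
      = (nfR L K a b).eval₂ (algebraMap (𝓞 L) (𝓞 M)) ((ζ ^ f) ^ (p - 1)) := by
    have h1 := Polynomial.hom_eval₂ (nfR L K a b) (algebraMap (𝓞 L) (𝓞 M)) (H71AB.act s) (ζ ^ f)
    rw [H71AB.act_apply, H71AB.act_apply, hsf] at h1
    rw [h1]
    congr 1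
    ext1 x
    exact hsL x
  have hord : ∀ Q : Ideal (𝓞 M), Q.IsPrime → (p : 𝓞 M) ∈ Q →
      ordI Q (Ideal.span {(nfR L K a b).eval₂ (algebraMap (𝓞 L) (𝓞 M)) (ζ ^ f)}) =
      ordI Q (Ideal.span {(nfR L K a b).eval₂ (algebraMap (𝓞 L) (𝓞 M)) ((ζ ^ f) ^ (p - 1))}) := by
    intro Q hQ hpQ
    rw [← hsF]
    exact (ordI_smul_eq (f * p) M hζ p s η hη hs Q hQ hpQ _).symm
  obtain ⟨h1, h2, I, hI⟩ := pow_ideal_gen L K p hp2 hd a b c h M hζp hord
  obtain ⟨A, y, hAy, -, -, hAQ, hJ⟩ := unr p hpp.one_le (Nat.cast_ne_zero.2 hpp.ne_zero) h1 h2 I hI hord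
  exact ⟨A, y, hAy, hAQ, hJ⟩

end elem

section red

variable {f p m : ℕ} [Fact p.Prime] (hpf : ¬ p ∣ f) [NeZero m] (hm : m = f * p)
  {M : Type*} [Field M] [NumberField M] [IsCyclotomicExtension {m} ℚ M] {ζ : 𝓞 M}
  (hζ : IsPrimitiveRoot ζ m) {k : Type*} [Field k] [CharP k p]

open H71AB

include hpf hm hζ

/-- the reduction of `P(ζ_p)`, `P ∈ (𝓞 L)[X]` -/
theorem key_red (e : 𝓞 M →+* k) {R : Type*} [CommRing R]
    (ι : R →+* 𝓞 M) (hι : ∀ r, ι r ∈ Algebra.adjoin ℤ {ζ ^ p}) (P : R[X]) :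
    ∃ F : ℤ[X], iv ζ F = P.eval₂ ι (ζ ^ f) ∧
      (X - 1 : k[X]) ^ (p - 1) ∣ iv (C (e ζ) * X : k[X]) F - (P.map (e.comp ι)).comp (X ^ f) := by
  have hgf : e ζ ^ f = 1 := by
    have h1 : (e ζ ^ f) ^ p = 1 := by
      rw [← pow_mul, ← hm, ← map_pow, hζ.pow_eq_one, map_one]
    have h2 : (e ζ ^ f - 1) ^ p = 0 := by
      rw [sub_pow_char, h1, one_pow, sub_self]
    exact sub_eq_zero.1 (eq_zero_of_pow_eq_zero h2)
  induction P using Polynomial.induction_on' with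
  | add P Q hP hQ =>
    obtain ⟨F, hF1, hF2⟩ := hP
    obtain ⟨G, hG1, hG2⟩ := hQ
    refine ⟨F + G, by rw [map_add, hF1, hG1, eval₂_add], ?_⟩
    have h := dvd_add hF2 hG2
    rw [Polynomial.map_add, add_comp, map_add]
    have h3 : iv (C (e ζ) * X : k[X]) F + iv (C (e ζ) * X : k[X]) G -
        ((P.map (e.comp ι)).comp (X ^ f) + (Q.map (e.comp ι)).comp (X ^ f)) =
        iv (C (e ζ) * X : k[X]) F - (P.map (e.comp ι)).comp (X ^ f) +
        (iv (C (e ζ) * X : k[X]) G - (Q.map (e.comp ι)).comp (X ^ f)) := by ring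
    rw [h3]
    exact h
  | monomial n c =>
    refine ⟨rp ζ (ι c) * X ^ (f * n), ?_, ?_⟩
    · rw [map_mul, map_pow, iv_X, rp_spec hζ, eval₂_monomial, ← pow_mul]
    · rw [map_mul, map_pow, iv_X, map_monomial, ← C_mul_X_pow_eq_monomial, mul_comp, C_comp,
        X_pow_comp, mul_pow, ← C_pow, pow_mul (e ζ), hgf, one_pow, C_1, one_mul, pow_mul X,
        ← sub_mul]
      exact (gX_const hpf hm hζ e (ι c) (hι c)).mul_right _

/-- the logarithmic derivatives of odd order of the element of `exists_mix` -/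
theorem Lg_mix (hp2 : p ≠ 2) (e : 𝓞 M →+* k) {R : Type*} [CommRing R]
    (ι : R →+* 𝓞 M) (hι : ∀ r, ι r ∈ Algebra.adjoin ℤ {ζ ^ p}) (F : R[X]) (A y : 𝓞 M)
    (hA : e A ≠ 0) (hy : e y ≠ 0)
    (hAy : A * F.eval₂ ι ((ζ ^ f) ^ (p - 1)) = y ^ p * F.eval₂ ι (ζ ^ f))
    (μ : ℕ) (H : k[X]) (hH : H.eval 1 ≠ 0) (hF : F.map (e.comp ι) = (X - 1) ^ μ * H)
    (j : ℕ) (hj : Odd j) (hj3 : 3 ≤ j) (hjμ : j + μ + 2 ≤ p) :
    Lg ζ e j A = 2 * (f : k) ^ j * DL j H := by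
  have hpp : p.Prime := Fact.out
  obtain ⟨F1, hF1, hF1'⟩ := key_red hpf hm hζ e ι hι F
  obtain ⟨F2, hF2, hF2'⟩ := key_red hpf hm hζ e ι hι (F.comp (X ^ (p - 1)))
  have hev : (F.comp (X ^ (p - 1))).eval₂ ι (ζ ^ f) = F.eval₂ ι ((ζ ^ f) ^ (p - 1)) := by
    rw [eval₂_comp, eval₂_X_pow]
  rw [hev] at hF2
  rw [Polynomial.map_comp, Polynomial.map_pow, map_X, comp_assoc, X_pow_comp, ← pow_mul] at hF2'
  have h1 := gX_sub hpf hm hζ e (rp ζ A * F2) (rp ζ y ^ p * F1) (by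
    rw [map_mul, map_mul, map_pow, rp_spec hζ, rp_spec hζ, hF1, hF2, hAy])
  rw [map_mul, map_mul, map_pow] at h1
  set a : k[X] := iv (C (e ζ) * X : k[X]) (rp ζ A) with ha
  set b : k[X] := iv (C (e ζ) * X : k[X]) (rp ζ y) with hb
  have hae : a.eval 1 = e A := eval_rp hζ e A
  have hbe : b.eval 1 = e y := eval_rp hζ e y
  have hbp : (X - 1 : k[X]) ^ (p - 1) ∣ b ^ p - C ((e y) ^ p) := by
    have h2 : b ^ p - C ((e y) ^ p) = (b - C (e y)) ^ p := by
      rw [sub_pow_char, C_pow]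
    rw [h2]
    refine (pow_dvd_pow _ (by omega : p - 1 ≤ p)).trans (pow_dvd_pow_of_dvd ?_ _)
    have h3 : (X - 1 : k[X]) = X - C 1 := by rw [C_1]
    rw [h3, dvd_iff_isRoot, IsRoot.def, eval_sub, hbe, eval_C, sub_self]
  refine mix_val hp2 hpf a H μ ((e y) ^ p) (pow_ne_zero _ hy) (by rw [hae]; exact hA) hH ?_ j hj hj3 hjμ
  rw [← hF]
  have h4 : a * (F.map (e.comp ι)).comp (X ^ (f * (p - 1))) -
      C ((e y) ^ p) * (F.map (e.comp ι)).comp (X ^ f)
      = (a * iv (C (e ζ) * X : k[X]) F2 - b ^ p * iv (C (e ζ) * X : k[X]) F1)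
        - a * (iv (C (e ζ) * X : k[X]) F2 - (F.map (e.comp ι)).comp (X ^ (f * (p - 1))))
        + b ^ p * (iv (C (e ζ) * X : k[X]) F1 - (F.map (e.comp ι)).comp (X ^ f))
        + (b ^ p - C ((e y) ^ p)) * (F.map (e.comp ι)).comp (X ^ f) := by ring
  rw [h4]
  exact dvd_add (dvd_add (dvd_sub h1 (hF2'.mul_left _)) (hF1'.mul_left _)) (hbp.mul_right _)

end red

/-- the factors `X - 1` of a product of linear factors -/
theorem lin_fact {k : Type*} [Field k] {ι : Type*} [Fintype ι] [DecidableEq k] (a b c : ι → k)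
    (h : ∀ i, a i + b i + c i = 0) (hac : ∀ i, ¬ (a i = 0 ∧ c i = 0)) :
    ∃ u : k, u ≠ 0 ∧ ∏ i, (C (a i) + X * C (b i))
      = (X - 1) ^ (Finset.univ.filter (fun i => c i = 0)).card
        * (C u * ∏ i ∈ Finset.univ.filter (fun i => ¬ c i = 0), (C (a i) + X * C (b i))) := by
  refine ⟨∏ i ∈ Finset.univ.filter (fun i => c i = 0), (-(a i)), ?_, ?_⟩
  · refine Finset.prod_ne_zero_iff.2 fun i hi => ?_
    rw [Finset.mem_filter] at hi
    exact neg_ne_zero.2 fun h1 => hac i ⟨h1, hi.2⟩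
  · rw [← Finset.prod_filter_mul_prod_filter_not Finset.univ (fun i => c i = 0), ← mul_assoc]
    congr 1
    rw [map_prod, ← Finset.prod_const, ← Finset.prod_mul_distrib]
    refine Finset.prod_congr rfl fun i hi => ?_
    rw [Finset.mem_filter] at hi
    have h1 := h i
    rw [hi.2, add_zero] at h1
    have h2 : b i = - a i := by linear_combination h1
    rw [h2, C_neg]
    ring

end H77AB
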